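import Pool.Agent.TH755.PO.Run
import Pool.Agent.TH654.TU.Main

/-!
# Deciding the half with the hit in subexponential time with calls to a total search problem
-/

set_option autoImplicit false

namespace Pool.Agent.TH755.UE

open MeasureTheory Pool.Agent.NPC Pool.Agent.H628R3.RO Pool.Agent.H673R3 Pool.Agent.H673R3.UC
  Pool.Agent.TH654.TU Pool.Agent.TH755.PO

/-! ### Numbers -/

/-- The budget at stage `n` is `2 ^ lf n`. -/
def lf (n : ℕ) : ℕ := n / (Nat.log 2 n + 1)

theorem lf_le (n : ℕ) : lf n ≤ n := Nat.div_le_self _ _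

theorem mul_lf_lt (K : ℕ) : ∃ n0, ∀ n ≥ n0, K * lf n < n := by
  refine ⟨2 ^ K, fun n hn => ?_⟩
  have hn0 : 0 < n := lt_of_lt_of_le (by positivity) hn
  have h1 : K ≤ Nat.log 2 n := Nat.le_log_of_pow_le (by norm_num) hn
  rcases Nat.eq_zero_or_pos (lf n) with h | h
  · rw [h]
    omega
  · calc K * lf n < (Nat.log 2 n + 1) * lf n := Nat.mul_lt_mul_of_pos_right (by omega) h
      _ ≤ n := Nat.mul_div_le _ _

theorem num_lf (P : Polynomial ℕ) (k : ℕ) : ∃ n0, ∀ n ≥ n0, ∀ i, 2 ^ i ≤ n → ∀ s ≤ i + 4,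
    (300 * (n + P.eval s + 1) * (P.eval s + 1)) ^ k ≤ lf n ^ (k + 1) := by
  obtain ⟨u0, hu0⟩ := poly_le_two_pow ((Polynomial.C 300 * (P.comp (Polynomial.X +
    Polynomial.C 4) + Polynomial.C 2) * (P.comp (Polynomial.X + Polynomial.C 4) +
    Polynomial.C 1)) ^ k * (Polynomial.C 2 * (Polynomial.X + Polynomial.C 1)) ^ (k + 1))
  refine ⟨2 ^ u0, fun n hn i hi s hs => ?_⟩
  have hn0 : n ≠ 0 := by
    have : 0 < 2 ^ u0 := by positivity
    omega
  obtain ⟨u, hu⟩ : ∃ u, u = Nat.log 2 n := ⟨_, rfl⟩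
  have h1 : u0 ≤ u := by rw [hu]; exact Nat.le_log_of_pow_le (by norm_num) hn
  have h2 : i ≤ u := by rw [hu]; exact Nat.le_log_of_pow_le (by norm_num) hi
  have h3 : 2 ^ u ≤ n := by rw [hu]; exact Nat.pow_log_le_self 2 hn0
  have h4 := hu0 u h1
  simp only [Polynomial.eval_mul, Polynomial.eval_pow, Polynomial.eval_add, Polynomial.eval_C,
    Polynomial.eval_comp, Polynomial.eval_X] at h4
  have h5 : P.eval s ≤ P.eval (u + 4) := eval_mono P (by omega)
  obtain ⟨Q, hQ⟩ : ∃ Q, Q = P.eval (u + 4) := ⟨_, rfl⟩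
  rw [← hQ] at h4 h5
  have h6 : n + P.eval s + 1 ≤ n * (Q + 2) := by
    have h7 : 1 * Q ≤ n * Q := Nat.mul_le_mul_right _ (by omega)
    calc n + P.eval s + 1 ≤ n + n * Q + n := by omega
      _ = n * (Q + 2) := by ring
  have h8 : 300 * (n + P.eval s + 1) * (P.eval s + 1) ≤ n * (300 * (Q + 2) * (Q + 1)) := by
    calc 300 * (n + P.eval s + 1) * (P.eval s + 1) ≤ 300 * (n * (Q + 2)) * (Q + 1) :=
          Nat.mul_le_mul (Nat.mul_le_mul_left _ h6) (by omega)
      _ = n * (300 * (Q + 2) * (Q + 1)) := by ring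
  have h9 : n ≤ 2 * (u + 1) * lf n := by
    have h10 : n < (u + 1) * (lf n + 1) := by
      rw [lf, ← hu]
      exact Nat.lt_mul_div_succ n (by omega)
    have h11 : 1 ≤ lf n := by
      rw [lf, ← hu, Nat.le_div_iff_mul_le (by omega)]
      have : u < 2 ^ u := Nat.lt_two_pow_self
      omega
    calc n ≤ (u + 1) * (lf n + 1) := h10.le
      _ ≤ (u + 1) * (2 * lf n) := Nat.mul_le_mul_left _ (by omega)
      _ = 2 * (u + 1) * lf n := by ring
  have h12 : (300 * (n + P.eval s + 1) * (P.eval s + 1)) ^ k * (2 * (u + 1)) ^ (k + 1) ≤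
      lf n ^ (k + 1) * (2 * (u + 1)) ^ (k + 1) := by
    calc (300 * (n + P.eval s + 1) * (P.eval s + 1)) ^ k * (2 * (u + 1)) ^ (k + 1)
        ≤ (n * (300 * (Q + 2) * (Q + 1))) ^ k * (2 * (u + 1)) ^ (k + 1) :=
          Nat.mul_le_mul_right _ (Nat.pow_le_pow_left h8 _)
      _ = n ^ k * ((300 * (Q + 2) * (Q + 1)) ^ k * (2 * (u + 1)) ^ (k + 1)) := by
          rw [mul_pow]; ring
      _ ≤ n ^ k * n := Nat.mul_le_mul_left _ (h4.trans h3)
      _ = n ^ (k + 1) := (pow_succ _ _).symm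
      _ ≤ (2 * (u + 1) * lf n) ^ (k + 1) := Nat.pow_le_pow_left h9 _
      _ = lf n ^ (k + 1) * (2 * (u + 1)) ^ (k + 1) := by rw [mul_pow]; ring
  exact Nat.le_of_mul_le_mul_right h12 (by positivity)

/-- The length of the instances. -/
theorem inst_length' : ∃ P : Polynomial ℕ, ∀ n s b j A, b < BB s → j < KK s →
    (inst n s b j A).length ≤ 300 * (n + P.eval s + 1) * (P.eval s + 1) := by
  obtain ⟨P, hP⟩ := size_poly
  refine ⟨P, ?_⟩
  intro n s b j A hb hj
  have h1 : BB s * (2 * KK s) * rr s + BB s + KK s ≤ P.eval s := by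
    have h0 := hP s
    generalize 2 ^ mm s = z at h0
    omega
  set N := P.eval s with hN
  have hb' : b ≤ N := by omega
  have hK : KK s ≤ N := by omega
  have hj' : j ≤ N := by omega
  have hlen := I1_length_certs n s b j A
  have hsz : ∀ x ∈ certs n s b j A, sz x ≤ 2 * N + 4 * wl n + 3 := by
    rintro x hx
    obtain ⟨i, hi, -, hsl, -⟩ := I1_mem_certs hx
    have h3 := pair_subset (n := n) hb hi hsl
    have h4 : (cd x).2.length = wl n := (mem_pair.1 hsl).2
    have h5 : (cd x).1 < BB s * (2 * KK s) * rr s := by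
      unfold blk at h3
      rw [mem_cands, Finset.mem_range] at h3
      exact h3.1
    have h6 : x = (List.replicate x.1.length (), x.2) := by
      refine Prod.ext ?_ rfl
      exact List.eq_replicate_of_mem fun _ _ => rfl
    have h7 : sz x = sz (List.replicate x.1.length ()) + sz x.2 + 1 := by
      conv_lhs => rw [h6]
      rw [sz_pair]
    have h8 := sz_listBool_le x.2
    have h9 : x.2.length = wl n := h4
    have h10 : x.1.length < BB s * (2 * KK s) * rr s := h5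
    rw [h7, I1_sz_unit_replicate]
    omega
  have hc := sz_le_length_mul (certs n s b j A) _ hsz
  have hbz := sz_nat_le b
  have hjz := sz_nat_le j
  have hbs : b.size ≤ b := Nat.size_le.2 Nat.lt_two_pow_self
  have hjs : j.size ≤ j := Nat.size_le.2 Nat.lt_two_pow_self
  have hL : (inst n s b j A).length = sz (List.replicate n ()) +
      (sz b + (sz j + sz (certs n s b j A) + 1) + 1) + 1 := by
    unfold inst instD
    rw [bits_length, sz_pair, sz_pair, sz_pair]
  rw [hL, I1_sz_unit_replicate]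
  have hc2 : sz (certs n s b j A) ≤ (N * 2) * (2 * N + 4 * wl n + 3 + 1) + 1 :=
    hc.trans (by
      have h3 : (certs n s b j A).length ≤ N * 2 := hlen.trans (Nat.mul_le_mul_right _ hK)
      gcongr)
  have hw : wl n = 2 * n + 16 := rfl
  rw [hw] at hc2
  nlinarith [Nat.zero_le (N * n), Nat.zero_le (N * N), Nat.zero_le (n * n), Nat.zero_le N,
    Nat.zero_le n]

theorem growth2 {lf : ℕ → ℕ} (hlf : ∀ K, ∃ n0, ∀ n ≥ n0, K * lf n < n) (D : Polynomial ℕ) :
    ∃ n0, ∀ n ≥ n0, D.eval (n + 2 ^ lf n) ≤ 2 ^ n := by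
  obtain ⟨k, _, hk2⟩ := growth D
  obtain ⟨n1, hn1⟩ := hk2 1
  obtain ⟨n2, hn2⟩ := hlf k
  refine ⟨max n1 n2, fun n hn => ?_⟩
  have h1 := hn1 n (le_trans (le_max_left _ _) hn) (2 ^ lf n) (by
    rw [← pow_mul]
    apply Nat.pow_lt_pow_right (by norm_num)
    rw [mul_comm]
    exact hn2 n (le_trans (le_max_right _ _) hn))
  omega

/-! ### The computation -/

/-- At stage `n`, the algorithm decides the instances, with calls to the search problem given by
`V` and `p`. -/
def GoodL (V : Alg) (p : Polynomial ℕ) (lf : ℕ → ℕ) (r : Alg × Polynomial ℕ) (n s : ℕ) :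
    Set Oracle :=
  {A | ∀ b < BB s, ∀ j < KK s, A ∈ Others n s b j →
    Run (TT V p A) (FF r.1 A) (pairBits (inst n s b j A) (List.replicate (2 ^ lf n) true))
      (r.2.eval ((inst n s b j A).length + 2 ^ lf n))
      {v | v = [true] ↔ A ∉ NoHit (wl n) (half n s b (2 * j))}
      (r.2.eval ((inst n s b j A).length + 2 ^ lf n)) []}

theorem loc_GoodL (V : Alg) (p : Polynomial ℕ) {lf : ℕ → ℕ} {C : ℕ} (hC : ∀ n, lf n ≤ n + C)
    (r : Alg × Polynomial ℕ) : ∃ b : Polynomial ℕ,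
    ∀ n s, s ≤ n → Loc {x | x.length ≤ b.eval (2 ^ n)} (GoodL V p lf r n s) := by
  obtain ⟨q1, hq1⟩ := r.1.out_congr
  obtain ⟨qV, hqV⟩ := V.out_congr
  obtain ⟨b1, hb1⟩ := r.1.out_length
  obtain ⟨P, hP⟩ := inst_length
  obtain ⟨S, hS⟩ := length_spotsB
  obtain ⟨cc, hcc⟩ : ∃ Q : Polynomial ℕ, Q = r.2.comp (P + Polynomial.C (2 ^ C) * Polynomial.X) :=
    ⟨_, rfl⟩
  obtain ⟨LL, hLL⟩ : ∃ Q : Polynomial ℕ, Q = Polynomial.C 2 * (Polynomial.C 2 * P +
    Polynomial.C 1 + Polynomial.C (2 ^ C) * Polynomial.X) + Polynomial.C 1 +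
    cc * (Polynomial.C 2 * p.comp cc + Polynomial.C 1) := ⟨_, rfl⟩
  refine ⟨S + q1.comp LL + qV.comp (Polynomial.C 2 * cc + Polynomial.C 1 + p.comp cc),
    fun n s hs => loc_of_imp fun A A' h => ?_⟩
  have hn2 : n ≤ 2 ^ n := Nat.lt_two_pow_self.le
  have hlf : 2 ^ lf n ≤ 2 ^ C * 2 ^ n := by
    rw [← pow_add, add_comm]
    exact Nat.pow_le_pow_right (by norm_num) (hC n)
  obtain ⟨cv, hcv⟩ : ∃ v, v = cc.eval (2 ^ n) := ⟨_, rfl⟩
  obtain ⟨Lv, hLv⟩ : ∃ v, v = LL.eval (2 ^ n) := ⟨_, rfl⟩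
  have eLv : Lv = 2 * (2 * P.eval (2 ^ n) + 1 + 2 ^ C * 2 ^ n) + 1 + cv * (2 * p.eval cv + 1) := by
    rw [hLv, hLL, hcv]
    simp only [Polynomial.eval_add, Polynomial.eval_mul, Polynomial.eval_C, Polynomial.eval_X,
      Polynomial.eval_comp]
  have h' : ∀ z : List Bool, z.length ≤ S.eval (2 ^ n) + q1.eval Lv +
      qV.eval (2 * cv + 1 + p.eval cv) → A z = A' z := by
    intro z hz
    apply h z
    change z.length ≤ _
    rw [hLv, hcv] at hz
    simpa only [Polynomial.eval_add, Polynomial.eval_comp, Polynomial.eval_mul,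
      Polynomial.eval_C] using hz
  have hspots : ∀ x ∈ spotsB n s, A x = A' x := by
    intro x hx
    apply h'
    have h1 := hS n s hs x hx
    have h2 := eval_mono S hn2
    omega
  intro hG b hb j hj hO'
  have hO : A ∈ Others n s b j := (loc_Others hb A A' hspots).mpr hO'
  have hj2 : 2 * j < 2 * KK s := by omega
  have hrun := hG b hb j hj hO
  have hinst : inst n s b j A = inst n s b j A' := inst_congr hb hspots
  rw [← hinst]
  have hlen : (inst n s b j A).length ≤ P.eval (2 ^ n) :=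
    (hP n s b j A hs hb hj).trans (eval_mono P hn2)
  have hloc := loc_noHitHalf (n := n) hb hj2 A A' hspots
  have hcle : r.2.eval ((inst n s b j A).length + 2 ^ lf n) ≤ cv := by
    rw [hcv, hcc]
    simp only [Polynomial.eval_add, Polynomial.eval_comp, Polynomial.eval_mul,
      Polynomial.eval_C, Polynomial.eval_X]
    exact eval_mono r.2 (by omega)
  refine run_imp r.1 V p b1 hb1 _ _ Lv A A' (fun s hs => hq1 A A' s Lv hs fun x hx => h' x ?_)
    (fun s hs => hqV A A' s (2 * cv + 1 + p.eval cv) ?_ fun x hx => h' x ?_) _ _ ?_ _ _ ?_ hrun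
  · omega
  · have := eval_mono p hcle
    omega
  · omega
  · intro z _ hz
    simp only [Set.mem_ofPred_eq] at hz ⊢
    rw [hz]
    exact not_congr hloc
  · rw [length_pairBits, List.length_replicate, List.length_nil, eLv]
    have h3 := eval_mono p hcle
    have h4 : r.2.eval ((inst n s b j A).length + 2 ^ lf n) *
        (2 * p.eval (r.2.eval ((inst n s b j A).length + 2 ^ lf n)) + 1) ≤
        cv * (2 * p.eval cv + 1) := Nat.mul_le_mul hcle (by omega)
    omega

theorem key_L (V : Alg) (p : Polynomial ℕ) {lf : ℕ → ℕ} {C : ℕ} (hC : ∀ n, lf n ≤ n + C)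
    (hlf : ∀ K, ∃ n0, ∀ n ≥ n0, K * lf n < n) (r : Alg × Polynomial ℕ) :
    ∃ n0, ∀ n ≥ n0, ∀ s,
    4 ≤ s → s ≤ n → ∀ t < n, ∀ η : Set Oracle, Loc {x | x.length ≤ t} η →
    ll s * (7 / 8 * prob η - prob (η ∩ (Two n s ∩ ErrF V p n)) / prob (Two n s)) ≤
      prob (η ∩ (GoodL V p lf r n s)ᶜ) := by
  classical
  obtain ⟨bE, hbE⟩ := loc_ErrF V p
  obtain ⟨bG, hbG⟩ := loc_GoodL V p hC r
  obtain ⟨bl, hbl⟩ := r.1.out_length
  obtain ⟨P, hP⟩ := inst_length
  obtain ⟨cc, hcc⟩ : ∃ Q : Polynomial ℕ, Q = r.2.comp (P + Polynomial.X) := ⟨_, rfl⟩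
  obtain ⟨LL, hLL⟩ : ∃ Q : Polynomial ℕ, Q = Polynomial.C 2 * (Polynomial.C 2 * P +
    Polynomial.C 1 + Polynomial.X) + Polynomial.C 1 +
    cc * (Polynomial.C 2 * p.comp cc + Polynomial.C 1) := ⟨_, rfl⟩
  obtain ⟨n1, hn1⟩ := growth2 hlf (cc + cc * (r.1.p.comp LL +
    V.p.comp (Polynomial.C 2 * cc + Polynomial.C 1 + p.comp cc)))
  refine ⟨n1, fun n hn s hs4 hsn t ht η hη => ?_⟩
  have hn1' := hn1 n hn
  obtain ⟨N, hN⟩ : ∃ N, N = n + 2 ^ lf n := ⟨_, rfl⟩
  rw [← hN] at hn1'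
  have hnN : n ≤ N := by rw [hN]; exact Nat.le_add_right _ _
  have hlN : 2 ^ lf n ≤ N := by rw [hN]; exact Nat.le_add_left _ _
  obtain ⟨cv, hcv⟩ : ∃ v, v = cc.eval N := ⟨_, rfl⟩
  obtain ⟨Lv, hLv⟩ : ∃ v, v = LL.eval N := ⟨_, rfl⟩
  have eLv : Lv = 2 * (2 * P.eval N + 1 + N) + 1 + cv * (2 * p.eval cv + 1) := by
    rw [hLv, hLL, hcv]
    simp only [Polynomial.eval_add, Polynomial.eval_mul, Polynomial.eval_C, Polynomial.eval_X,
      Polynomial.eval_comp]
  have ecv : cv = r.2.eval (P.eval N + N) := by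
    rw [hcv, hcc]
    simp only [Polynomial.eval_add, Polynomial.eval_X, Polynomial.eval_comp]
  simp only [Polynomial.eval_comp, Polynomial.eval_add, Polynomial.eval_mul, Polynomial.eval_C]
    at hn1'
  rw [← hcv, ← hLv] at hn1'
  refine key_blocksT (k := bE.eval (2 ^ n) + bG.eval (2 ^ n))
    (t := cv * (r.1.p.eval Lv + V.p.eval (2 * cv + 1 + p.eval cv))) hs4 hsn ht hη
    (Loc.mono (fun x hx => by simp only [Set.mem_ofPred_eq] at hx ⊢; omega) (hbG n s hsn))
    (Loc.mono (fun x hx => by simp only [Set.mem_ofPred_eq] at hx ⊢; omega) (hbE n))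
    (by omega) ?_
  intro b hb j hj B hBO hBZ hBE
  set m := wl n with hm
  set W := pair n s b j with hWdef
  -- the instance
  set x : List Bool := inst n s b j B with hx
  have hxlen : x.length ≤ P.eval n := hP n s b j B hsn hb hj
  have hxp : ∀ h : Finset Cand, h ⊆ W → inst n s b j (plant (allSpots m h) B) = x :=
    fun h hh => inst_plant hj hh B
  have hxN : x.length ≤ P.eval N := hxlen.trans (eval_mono P hnN)
  have hcle : r.2.eval (x.length + 2 ^ lf n) ≤ cv := by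
    rw [ecv]
    exact eval_mono r.2 (by omega)
  have hstart : 2 * (pairBits x (List.replicate (2 ^ lf n) true)).length + 1 +
      ([] : List Bool).length + r.2.eval (x.length + 2 ^ lf n) *
        (2 * p.eval (r.2.eval (x.length + 2 ^ lf n)) + 1) ≤ Lv := by
    rw [length_pairBits, List.length_replicate, List.length_nil, eLv]
    have h3 := eval_mono p hcle
    have h4 : r.2.eval (x.length + 2 ^ lf n) *
        (2 * p.eval (r.2.eval (x.length + 2 ^ lf n)) + 1) ≤
        cv * (2 * p.eval cv + 1) := Nat.mul_le_mul hcle (by omega)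
    omega
  obtain ⟨Q, z, hQc, _, hQ⟩ := run_local r.1 V p bl hbl
    (pairBits x (List.replicate (2 ^ lf n) true)) (r.2.eval (x.length + 2 ^ lf n)) Lv B (by
      intro u hu
      by_contra hcon
      exact hBE ⟨u, by omega, fun y hy hy2 => hcon ⟨y, hy, hy2⟩⟩)
    (r.2.eval (x.length + 2 ^ lf n)) [] hstart
  obtain ⟨T, hTc, hT⟩ := touch W m Q
  have hT1 : T.card ≤ cv * (r.1.p.eval Lv + V.p.eval (2 * cv + 1 + p.eval cv)) := by
    refine hTc.trans (hQc.trans (Nat.mul_le_mul hcle ?_))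
    have h1 := eval_mono p hcle
    have h2 := eval_mono V.p (show 2 * r.2.eval (x.length + 2 ^ lf n) + 1 +
      p.eval (r.2.eval (x.length + 2 ^ lf n)) ≤ 2 * cv + 1 + p.eval cv by omega)
    omega
  refine ⟨T, hT1, fun κ hκ κ' hκ' hκT hκ'T hG hG' => ?_⟩
  have hκW : κ ∈ W := Finset.mem_union_left _ hκ
  have hκ'W : κ' ∈ W := Finset.mem_union_right _ hκ'
  -- the answer does not depend on the hit
  have hans : ∀ ρ ∈ W, ρ ∉ T → plant (allSpots m {ρ}) B ∈ GoodL V p lf r n s →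
      (z = [true] ↔ plant (allSpots m {ρ}) B ∉ NoHit m (half n s b (2 * j))) := by
    intro ρ hρ hρT hρG
    have hhi : ({ρ} : Finset Cand) ⊆ W := Finset.singleton_subset_iff.2 hρ
    have hdj : Disjoint ({ρ} : Finset Cand) T := Finset.disjoint_singleton_left.2 hρT
    have hsame := hT {ρ} hhi hdj B
    have hOi : plant (allSpots m {ρ}) B ∈ Others n s b j := (plant_Others hj hhi B).mpr hBO
    have hrun := hρG b hb j hj hOi
    rw [hxp _ hhi] at hrun
    exact hQ _ (fun q hq => hsame q hq) _ hrun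
  have h1 := hans κ hκW hκT hG
  have h2 := hans κ' hκ'W hκ'T hG'
  have hg3 : z = [true] := by
    rw [h1]
    intro hno
    exact hno κ hκ (M2.hit_plant_self (Finset.mem_singleton_self κ) B)
  refine (h2.1 hg3) fun ρ hρ hhit => ?_
  have hne : ρ ∉ ({κ'} : Finset Cand) := by
    rw [Finset.mem_singleton]
    rintro rfl
    exact Finset.disjoint_left.1 (half_disjoint n s b j) hρ hκ'
  exact hBZ ρ (Finset.mem_union_left _ hρ) ((M2.hit_plant hne B).1 hhit)

end Pool.Agent.TH755.UE
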