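import Pool.Agent.TH755.UE.Key

/-!
# Relative to a random oracle `UP ∩ coUP` needs exponential time, even with calls to a total search
problem
-/

set_option autoImplicit false

namespace Pool.Agent.TH755.UE

open MeasureTheory Pool.Agent.NPC Pool.Agent.H628R3.RO Pool.Agent.H673R3 Pool.Agent.H673R3.UC
  Pool.Agent.TH654.TU Pool.Agent.TH755.PO

/-- the core -/
theorem ae_L (V : Alg) (p : Polynomial ℕ) : ∃ b : Polynomial ℕ,
    Check Two (fun n _ => ErrF V p n) b ∧
    ∀ᵐ A ∂randomOracle, (∀ n s, A ∉ Two n s ∩ ErrF V p n) →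
      ∃ (t : ℕ) (L : List (List Bool)),
      (∃ i0, ∀ i ≥ i0, A ∉ UC.Inv (Tt b t i)
        (H628R3.RO.lev Two (fun n _ => ErrF V p n) t L (Tt b t) i)) ∧
      ∀ (r : Alg × Polynomial ℕ) (i0 : ℕ), ∃ i ≥ i0, A ∉ GoodL V p lf r (Tt b t i)
        (H628R3.RO.lev Two (fun n _ => ErrF V p n) t L (Tt b t) i) := by
  have := countable_poly
  obtain ⟨b, hc⟩ := check_T V p
  have hC : ∀ n, lf n ≤ n + 0 := lf_le
  refine ⟨b, hc, ?_⟩
  exact Pool.Agent.H583R2.NC.core_gen (R := Alg × Polynomial ℕ) Two UC.Inv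
    (fun n _ => ErrF V p n) (GoodL V p lf) spotsB
    (fun n s => lt_length_spotsB) (fun n n' s s' h => disjoint_spotsB n n' s s' h)
    loc_Two (fun n s => measurableSet_of_loc (spotsB n s).finite_toSet (loc_Inv n s))
    b hc.locErr hc.locBad (fun r => loc_GoodL V p hC r)
    e2 ll e2_nonneg summable_e2 (fun s hs => e2_le hs)
    (fun n s hs hn => prob_Two_le hs hn) 2 (fun n s hs hn => prob_Inv_le_Two hs hn)
    (fun s hs => ⟨63 * ((1 / 2 : ℝ) ^ (rr s + 12) / (rr s : ℝ) ^ 2), by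
      have := Z1_rr_pos hs
      positivity, fun n hn => prob_Two_pos hs hn⟩)
    ll_nonneg not_summable_ll (fun r => key_L V p hC mul_lf_lt r) hc.le_eval

/-- The stages in use grow fast. -/
theorem two_pow_le_Tt {b : Polynomial ℕ} (hb : ∀ m, m ≤ b.eval m) (t i : ℕ) :
    2 ^ i ≤ Tt b t i := by
  induction i with
  | zero =>
    rw [Tt_zero]
    omega
  | succ i ih =>
    obtain ⟨n, hn⟩ : ∃ n, n = Tt b t i := ⟨_, rfl⟩
    have h1 : i < n := by
      have h0 : i < 2 ^ i := Nat.lt_two_pow_self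
      omega
    have h2 : n < 2 ^ n := Nat.lt_two_pow_self
    have h3 := hb (2 ^ n)
    have h4 : b.eval (2 ^ n) + 1 < 2 ^ (b.eval (2 ^ n) + 1) := Nat.lt_two_pow_self
    rw [Tt, ← hn, Gt]
    have h5 : 2 ^ (i + 1) ≤ 2 ^ 2 ^ (b.eval (2 ^ n) + 1) :=
      Nat.pow_le_pow_right (by norm_num) (by omega)
    omega

/-- `L` is decided in time polynomial in `|x| + 2 ^ l` whenever `|x| ^ k ≤ l ^ (k + 1)`, with calls
to the search problem `T`: by a computation whose next action is computed by a function `F`,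
polynomial-time computable relative to `A`, from the input `x`, from `1 ^ (2 ^ l)` and from the
solutions received so far, with at most `q (|x| + 2 ^ l)` rounds and with calls of at most this
length. -/
def DecidedInTime (A : Oracle) (T : List Bool → List Bool → Prop) (k : ℕ)
    (L : Set (List Bool)) : Prop :=
  ∃ (F : List Bool → List Bool) (q : Polynomial ℕ), IsFP A F ∧
    ∀ (x : List Bool) (l : ℕ), x.length ^ k ≤ l ^ (k + 1) →
      Run T F (pairBits x (List.replicate (2 ^ l) true)) (q.eval (x.length + 2 ^ l))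
        {v | v = [true] ↔ x ∈ L} (q.eval (x.length + 2 ^ l)) []

theorem main_L : ∀ᵐ A ∂randomOracle, ∀ T, IsTFNP A T →
    ∃ L : Set (List Bool), IsUP A L ∧ IsUP A Lᶜ ∧ ∀ k, ¬ DecidedInTime A T k L := by
  have := countable_poly
  obtain ⟨P, hP⟩ := inst_length'
  choose b hc hcore using fun q : Alg × Polynomial ℕ => ae_L q.1 q.2
  have hall : ∀ᵐ A ∂randomOracle, ∀ q : Alg × Polynomial ℕ,
      (∀ n s, A ∉ Two n s ∩ ErrF q.1 q.2 n) → ∃ (t : ℕ) (L : List (List Bool)),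
      (∃ i0, ∀ i ≥ i0, A ∉ UC.Inv (Tt (b q) t i)
        (H628R3.RO.lev Two (fun n _ => ErrF q.1 q.2 n) t L (Tt (b q) t) i)) ∧
      ∀ (r : Alg × Polynomial ℕ) (i0 : ℕ), ∃ i ≥ i0, A ∉ GoodL q.1 q.2 lf r (Tt (b q) t i)
        (H628R3.RO.lev Two (fun n _ => ErrF q.1 q.2 n) t L (Tt (b q) t) i) :=
    ae_all_iff.2 hcore
  filter_upwards [hall] with A hA R hR
  obtain ⟨⟨V, p, ⟨M, hM⟩, hV⟩, htot⟩ := hR
  have hTT : R = TT M p A := by
    funext u y
    apply propext
    rw [hV, TT, hM, Option.some.injEq]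
  obtain ⟨t, S, ⟨i1, h1⟩, h2⟩ := hA (M, p) (by
    rintro n j ⟨_, x, _, h4⟩
    obtain ⟨y, hy⟩ := htot x
    obtain ⟨h5, h6⟩ := (hV x y).1 hy
    exact h4 y h5 (by rw [hM, h6]))
  set f := schK Two (fun n _ => ErrF M p n) (b (M, p)) t S (Tt (b (M, p)) t i1) with hf
  have hfn : ∀ n s, f n = some s → s ≤ n := fun n s h => schK_le h
  have hfA : ∀ n s, f n = some s → A ∉ UC.Inv n s := by
    intro n s h
    obtain ⟨h3, i, rfl, rfl⟩ := eq_of_schK h
    exact h1 i ((strictMono_Tt (b (M, p)) t).le_iff_le.1 h3)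
  have hpf : Poly (fun x : List Unit => f x.length) :=
    Pool.Agent.H583R2.NC.p_schK' (hc (M, p)) t S _
  refine ⟨_, isUP_LL A f hpf hfn hfA, isUP_LLc A f hpf hfn hfA, ?_⟩
  rintro k ⟨F, q, ⟨H, hH⟩, hrun⟩
  have hFF : F = FF H A := by
    funext s
    rw [FF, hH]
    rfl
  obtain ⟨n0, hn0⟩ := num_lf P k
  obtain ⟨i, hi, h3⟩ := h2 (H, q) (max i1 n0)
  have hi1 : i1 ≤ i := le_trans (le_max_left _ _) hi
  have hin : n0 ≤ i := le_trans (le_max_right _ _) hi
  set n := Tt (b (M, p)) t i with hn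
  set s := H628R3.RO.lev Two (fun n _ => ErrF M p n) t S (Tt (b (M, p)) t) i with hs
  have hTi : t + 4 + i ≤ n := add_le_Tt (b (M, p)) t i
  have hfi : f n = some s := schK_Tt ((strictMono_Tt (b (M, p)) t).monotone hi1)
  have hsi : s ≤ i + 4 := lev_le_add _ _ _ _ _ i
  have h2i : 2 ^ i ≤ n := two_pow_le_Tt (hc (M, p)).le_eval t i
  refine h3 fun bb hbb j hj ho => ?_
  have hx : (inst n s bb j A).length ^ k ≤ lf n ^ (k + 1) :=
    (Nat.pow_le_pow_left (hP n s bb j A hbb hj) k).trans (hn0 n (by omega) i h2i s hsi)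
  have h4 := hrun (inst n s bb j A) (lf n) hx
  rw [hTT, hFF] at h4
  have h5 : {v : List Bool | v = [true] ↔ inst n s bb j A ∈ LL f A} =
      {v | v = [true] ↔ A ∉ NoHit (wl n) (half n s bb (2 * j))} := by
    ext v
    simp only [Set.mem_ofPred_eq]
    rw [Z1_mem_LL_inst hfi hbb hj ho]
  rw [h5] at h4
  exact h4

end Pool.Agent.TH755.UE
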